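import Pool.Agent.Q2.PM.Stm

/-! Job PM-C5 (helper204 for helper2). -/

set_option autoImplicit false

namespace Pool.Agent.Q204.PM

open Subgroup Q2.TN Q2.PM

theorem c5 : S_C5 := by
  intro k G _ _ P N H hE hN hN2 hHP hHk hHN hodd
  obtain ⟨F, hFn, hNF, hF⟩ := hE.ext H N hHP hHk hN hHN
  have hF2 : ∃ j : ℕ, N.relIndex F = 2 ^ j := by
    rcases hF with h | h
    · exact h
    · exact absurd (hodd F hFn hNF.le h) hNF.ne'
  obtain ⟨j, hj⟩ := hF2
  -- `F` is a 2-group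
  have : Fact (Nat.Prime 2) := ⟨Nat.prime_two⟩
  obtain ⟨a, ha⟩ := (IsPGroup.iff_card (p := 2)).1 hN2
  have hFc : Nat.card F = 2 ^ (a + j) := by
    have h := Subgroup.relIndex_mul_relIndex ⊥ N F bot_le hNF.le
    rw [Subgroup.relIndex_bot_left, Subgroup.relIndex_bot_left, ha, hj] at h
    rw [← h, pow_add]
  have hFp : IsPGroup 2 F := IsPGroup.iff_card.2 ⟨_, hFc⟩
  -- minimal
  have hex : ∃ n : ℕ, ∃ V : Subgroup G, V.Normal ∧ N < V ∧ V ≤ F ∧ Nat.card V = n := ⟨_, F, hFn, hNF, le_rfl, rfl⟩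
  classical
  obtain ⟨V, hVn, hNV, hVF, hVc⟩ := Nat.find_spec hex
  refine ⟨V, ⟨hN, hVn, hNV, ?_⟩, hFp.to_le hVF⟩
  intro L hL hNL hLV
  by_cases h : N = L
  · exact Or.inl h.symm
  · right
    have hNL' : N < L := lt_of_le_of_ne hNL h
    have h1 : Nat.find hex ≤ Nat.card L := Nat.find_min' hex ⟨L, hL, hNL', hLV.trans hVF, rfl⟩
    rw [← hVc] at h1
    exact Subgroup.eq_of_le_of_card_ge hLV h1

end Pool.Agent.Q204.PM
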